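import Pool.Agent.Helper70.Matching.Specs3

/-! Packet M-C5 (MP_fb8750_pr): Theorem A and additivity in probability.  helper31. -/

set_option autoImplicit false
open Finset

namespace Pool.Agent.Helper31.Matching

open Pool.Agent.Helper70.Matching

noncomputable section

theorem thmA (h1 : Spec_proj) (h2 : Spec_noise) : Spec_thmA := by
  intro C0 ε hC0 hε
  set θ : ℝ := min (1 / 2) (ε / (4 * C0 ^ 2)) with hθdef
  have hC02 : 0 < C0 ^ 2 := by positivity
  have hθ0 : 0 < θ := lt_min (by norm_num) (by positivity)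
  have hθ1 : θ < 1 := lt_of_le_of_lt (min_le_left _ _) (by norm_num)
  have hθ2 : 2 * (θ * C0 ^ 2) ≤ ε / 2 := by
    have h : θ ≤ ε / (4 * C0 ^ 2) := min_le_right _ _
    have h' : θ * C0 ^ 2 ≤ ε / (4 * C0 ^ 2) * C0 ^ 2 := mul_le_mul_of_nonneg_right h hC02.le
    have h'' : ε / (4 * C0 ^ 2) * C0 ^ 2 = ε / 4 := by field_simp
    linarith
  set v : ℝ := ε * θ / 4 with hvdef
  have hv : 0 < v := by positivity
  have hv2 : 2 * (v / θ) = ε / 2 := by
    rw [hvdef]; field_simp; ring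
  obtain ⟨m, J, hm, hJ, H⟩ := h1 C0 v hC0 hv
  refine ⟨m, J, hm, hJ, ?_⟩
  intro K α κ _ _ _ _ w hw p hp G hG
  have hA : ∀ (A : Finset K) (u : K → α),
      ∑ k, Vr w (PE w {k} (fun x => G (A.piecewise x u))) ≤ v * Fintype.card K := by
    intro A u
    refine H K α κ w hw p hp (fun x => G (A.piecewise x u)) ?_
    intro i hi c x x' hx
    refine hG i hi c _ _ ?_
    intro k hk
    by_cases hkA : k ∈ A
    · simp [Finset.piecewise, hkA, hx k hk]
    · simp [Finset.piecewise, hkA]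
  have hB : ∀ (k : K) (u u' : K → α), (∀ k', k' ≠ k → u k' = u' k') → |G u - G u'| ≤ C0 := by
    intro k u u' huu
    have := hG 0 (Nat.zero_le _) (p 0 k) u u' (fun k' hk' => huu k' (fun e => hk' (by rw [e])))
    simpa using this
  have h := h2 K α w hw G v C0 θ hθ0 hθ1 hv.le hA hB
  refine h.trans ?_
  have hcard : (0 : ℝ) ≤ (Fintype.card K : ℝ) := Nat.cast_nonneg _
  have : 2 * (v / θ + θ * C0 ^ 2) ≤ ε := by linarith
  exact mul_le_mul_of_nonneg_right this hcard

lemma Vr_mul {K α : Type} [Fintype K] [DecidableEq K] [Fintype α] (w : K → α → ℝ)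
    (c : ℝ) (f : (K → α) → ℝ) : Vr w (fun u => c * f u) = c ^ 2 * Vr w f := by
  unfold Vr
  rw [← Ex_mul_left]
  congr 1
  funext u
  rw [Ex_mul_left]
  ring

theorem additive (h1 : Spec_proj) (h2 : Spec_noise) (h3 : Spec_oscG) (h4 : Spec_law)
    (h5 : Spec_tv) : Spec_additive := by
  intro Fn C hFn ε hε
  have hC : 1 ≤ C := hFn.one_le
  obtain ⟨m, J, hm, hJ, H⟩ := thmA h1 h2 (21 * C) ((ε / 2) ^ 2) (by linarith) (by positivity)
  have hmJ : 0 < m ^ J := Nat.pow_pos (by omega)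
  refine ⟨m ^ J, hmJ, ?_⟩
  intro N B rs h hN hs hrs hB hh hh2 hsmall
  obtain ⟨q, rfl⟩ := hs
  have hq : 0 < q := Nat.pos_of_mul_pos_left hrs
  have hdiv : m ^ J * q / m ^ J = q := Nat.mul_div_cancel_left q hmJ
  rw [hdiv] at hsmall
  have hN' : N = (B * m ^ J) * q := by rw [hN, mul_assoc]
  have hL : 0 < B * m ^ J := Nat.mul_pos hB hmJ
  have hp0 : 0 < h ^ 2 := by positivity
  obtain ⟨hHier, hosc⟩ := h3 Fn C hFn m J B q N h hN' hm hq hh
  obtain ⟨hw, -⟩ := h4 ℝ N (B * m ^ J) q hN' (h ^ 2) hq hL hp0 (by linarith)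
  have hqR : (0 : ℝ) < q := by exact_mod_cast hq
  have hqh : 0 < (q : ℝ) * h := mul_pos hqR hh
  set F : (Fin (B * m ^ J) × Fin (B * m ^ J) → Al N) → ℝ :=
    fun U => Gw Fn h (m ^ J * q) B (glue q hN' U) with hF
  have hvar := H (Fin (B * m ^ J) × Fin (B * m ^ J)) (Al N) (ℕ × ℕ) _ hw _ hHier
    (fun U => (1 / (q * h)) * F U) (by
      intro i hi c U U' hUU
      have hb := hosc i hi c U U' hUU
      rw [← mul_sub, abs_mul, abs_of_pos (by positivity : (0 : ℝ) < 1 / (q * h))]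
      have hb' : 1 / (q * h) * |F U - F U'| ≤ 1 / (q * h) * ((21 * C * (q * h)) * (m : ℝ) ^ i) :=
        mul_le_mul_of_nonneg_left hb (by positivity)
      refine hb'.trans (le_of_eq ?_)
      field_simp)
  rw [Vr_mul] at hvar
  set W := fun k : Fin (B * m ^ J) × Fin (B * m ^ J) => wU (N := N) (h ^ 2) q k with hW
  have hNh : (0 : ℝ) < N * h := by
    refine mul_pos ?_ hh
    have : 0 < N := by rw [hN']; exact Nat.mul_pos hL hq
    exact_mod_cast this
  have hcard : (Fintype.card (Fin (B * m ^ J) × Fin (B * m ^ J)) : ℝ)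
      = ((B * m ^ J : ℕ) : ℝ) ^ 2 := by
    rw [Fintype.card_prod, Fintype.card_fin, sq]
    push_cast
    ring
  rw [hcard] at hvar
  have hvar2 : Vr W F ≤ (ε / 2 * (N * h)) ^ 2 := by
    have e1 : Vr W F = (q * h) ^ 2 * ((1 / (q * h)) ^ 2 * Vr W F) := by
      field_simp
    have e2 : (ε / 2 * (N * h)) ^ 2
        = (q * h) ^ 2 * ((ε / 2) ^ 2 * ((B * m ^ J : ℕ) : ℝ) ^ 2) := by
      rw [hN']; push_cast; ring
    rw [e1, e2]
    exact mul_le_mul_of_nonneg_left hvar (by positivity)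
  set c : ℝ := Ex W F with hc
  have habs : Ex W (fun U => |F U - c|) ≤ ε / 2 * (N * h) := by
    have hs := sq_Ex_le hw (fun U => |F U - c|)
    have hs2 : Ex W (fun U => |F U - c| ^ 2) = Vr W F := by
      unfold Vr
      congr 1
      funext U
      rw [sq_abs]
    rw [hs2] at hs
    exact (le_abs_self _).trans (abs_le_of_sq_le_sq (hs.trans hvar2) (by positivity))
  refine ⟨c, ?_⟩
  set f : (Site N → Bool) → ℝ :=
    fun ω => min 1 (|Gw Fn h (m ^ J * q) B ω - c| / (N * h)) with hf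
  have hf0 : ∀ ω, 0 ≤ f ω := fun ω => le_min zero_le_one (div_nonneg (abs_nonneg _) hNh.le)
  have hf1 : ∀ ω, ‖f ω‖ ≤ 1 := by
    intro ω
    rw [Real.norm_of_nonneg (hf0 ω)]
    exact min_le_left _ _
  have htv := h5 ℝ N (B * m ^ J) q hN' (h ^ 2) hq hL hp0 hh2
    (hsmall.trans (min_le_left _ _)) f hf1
  have hEx : Ex W (fun U => f (glue q hN' U)) ≤ ε / 2 := by
    have hle : Ex W (fun U => f (glue q hN' U)) ≤ Ex W (fun U => (1 / (N * h)) * |F U - c|) := by
      refine Ex_mono hw fun U => ?_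
      refine (min_le_right _ _).trans (le_of_eq ?_)
      show |Gw Fn h (m ^ J * q) B (glue q hN' U) - c| / (N * h) = 1 / (N * h) * |F U - c|
      rw [div_eq_mul_inv, one_div, mul_comm]
    rw [Ex_mul_left] at hle
    refine hle.trans ?_
    have := mul_le_mul_of_nonneg_left habs (by positivity : (0 : ℝ) ≤ 1 / (N * h))
    refine this.trans (le_of_eq ?_)
    have hne : (N : ℝ) * h ≠ 0 := hNh.ne'
    calc 1 / (N * h) * (ε / 2 * (N * h)) = ε / 2 * ((N * h) / (N * h)) := by ring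
      _ = ε / 2 := by rw [div_self hne, mul_one]
  have h6 : 6 * (((B * m ^ J : ℕ) : ℝ) ^ 2 * (1 - 2 * h ^ 2) ^ (q ^ 2)) ≤ ε / 2 := by
    have := hsmall.trans (min_le_right _ _)
    linarith
  have h7 := htv.trans h6
  rw [Real.norm_eq_abs, abs_le] at h7
  have h8 := h7.1
  show Ee (h ^ 2) f ≤ ε
  linarith

end

end Pool.Agent.Helper31.Matching
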