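import Pool.Agent.Helper70.Matching.Specs4

/-! Packet M-C6a (MP_fb8750_pr): probability lower bound and the two-event variance bound.  helper31. -/

set_option autoImplicit false
set_option linter.unusedSectionVars false
open Finset

namespace Pool.Agent.Helper31.Matching

open Pool.Agent.Helper70.Matching

noncomputable section

theorem twoEvent : Spec_twoEvent := by
  intro K α _ _ _ w hw D f a b _ _ π hπ ha hb hPa hPb hab
  set g := PE w D f with hg
  set μ := Ex w g with hμ
  have key : ∀ u u', a u → b u' → g u' + 1 ≤ g u := by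
    intro u u' hu hu'
    have h1 : ∀ v : K → α, f (D.piecewise u' v) + 1 ≤ f (D.piecewise u v) := by
      intro v
      refine hab _ _ ?_ ?_ ?_
      · have : a (D.piecewise u v) = a u := ha fun k hk => by
          have hk' : k ∈ D := by simpa using hk
          simp [Finset.piecewise, hk']
        rw [this]; exact hu
      · have : b (D.piecewise u' v) = b u' := hb fun k hk => by
          have hk' : k ∈ D := by simpa using hk
          simp [Finset.piecewise, hk']
        rw [this]; exact hu'
      · intro k hk
        simp [Finset.piecewise, hk]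
    have h2 := Ex_mono hw h1
    rw [Ex_add, Ex_const hw] at h2
    exact h2
  have hfin : ∀ (c : (K → α) → Prop) [DecidablePred c],
      π ≤ Ex w (fun u => if c u then (1 : ℝ) else 0) →
      (∀ u, c u → 1 / 4 ≤ (g u - μ) ^ 2) → π / 4 ≤ Vr w g := by
    intro c _ hc hcu
    have h1 : Ex w (fun u => (1 / 4 : ℝ) * (if c u then (1 : ℝ) else 0)) ≤ Vr w g := by
      unfold Vr
      refine Ex_mono hw fun u => ?_
      by_cases h : c u
      · simp only [h, if_true, mul_one]; exact hcu u h
      · simp only [h, if_false, mul_zero]; exact sq_nonneg _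
    rw [Ex_mul_left] at h1
    linarith
  by_cases hcase : ∃ u, a u ∧ g u < μ + 1 / 2
  · obtain ⟨u, hu, hlt⟩ := hcase
    refine hfin b hPb fun u' hu' => ?_
    have := key u u' hu hu'
    nlinarith
  · push Not at hcase
    refine hfin a hPa fun u hu => ?_
    have := hcase u hu
    nlinarith

/-! ### Bernoulli weights -/

theorem isWt_bw {V : Type} {p : ℝ} (h0 : 0 ≤ p) (h1 : p ≤ 1) : IsWt (bw p : V → Bool → ℝ) where
  nonneg := fun k a => by
    unfold bw; split_ifs <;> linarith
  sum_one := fun k => by
    simp [bw]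

theorem Ex_single {K α : Type} [Fintype K] [DecidableEq K] [Fintype α] {w : K → α → ℝ}
    (hw : IsWt w) (v : K) (φ : α → ℝ) : Ex w (fun u => φ (u v)) = ∑ a, w v a * φ a := by
  have h := Ex_comp_injective hw (fun _ : Unit => v) (fun _ _ _ => rfl)
    (fun x : Unit → α => φ (x ()))
  rw [h]
  unfold Ex PW
  rw [← (Equiv.funUnique Unit α).symm.sum_comp]
  refine sum_congr rfl fun a _ => ?_
  simp

variable {V : Type} [Fintype V] [DecidableEq V] {p : ℝ}

theorem Ex_bw_true (h0 : 0 ≤ p) (h1 : p ≤ 1) (v : V) :
    Ex (bw p) (fun ω : V → Bool => if ω v = true then (1 : ℝ) else 0) = p := by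
  rw [Ex_single (isWt_bw h0 h1) v (fun b => if b = true then (1 : ℝ) else 0)]
  simp [bw]

theorem Ex_bw_false (h0 : 0 ≤ p) (h1 : p ≤ 1) (v : V) :
    Ex (bw p) (fun ω : V → Bool => if ω v = true then (0 : ℝ) else 1) = 1 - p := by
  rw [Ex_single (isWt_bw h0 h1) v (fun b => if b = true then (0 : ℝ) else 1)]
  simp [bw]

theorem dependsOn_single {α E : Type} (v : V) (φ : α → E) :
    DependsOn (fun u : V → α => φ (u v)) (({v} : Finset V) : Set V) := by
  intro x y hxy
  show φ (x v) = φ (y v)
  rw [hxy v (by simp)]

theorem cnt_dependsOn (A : Finset V) :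
    DependsOn (fun ω : V → Bool => cnt A ω) (A : Set V) := by
  intro x y hxy
  show cnt A x = cnt A y
  unfold cnt
  congr 1
  refine filter_congr fun v hv => ?_
  rw [hxy v (by simpa using hv)]

theorem probZero (h0 : 0 ≤ p) (h1 : p ≤ 1) (R : Finset V) :
    Ex (bw p) (fun ω : V → Bool => if cnt R ω = 0 then (1 : ℝ) else 0) = (1 - p) ^ R.card := by
  have hw : IsWt (bw p : V → Bool → ℝ) := isWt_bw h0 h1
  have e : (fun ω : V → Bool => if cnt R ω = 0 then (1 : ℝ) else 0)
      = fun ω => ∏ v ∈ R, (if ω v = true then (0 : ℝ) else 1) := by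
    funext ω
    by_cases h : cnt R ω = 0
    · rw [if_pos h, prod_eq_one]
      intro v hv
      unfold cnt at h
      rw [card_eq_zero, filter_eq_empty_iff] at h
      rw [if_neg (h hv)]
    · rw [if_neg h]
      unfold cnt at h
      rw [card_eq_zero, filter_eq_empty_iff] at h
      push Not at h
      obtain ⟨v, hv, hv2⟩ := h
      rw [prod_eq_zero hv]
      rw [if_pos hv2]
  rw [e, Ex_prod hw R (fun v => {v}) (fun v ω => if ω v = true then (0 : ℝ) else 1)
    (fun i _ j _ hij => by simpa using hij)
    (fun i _ => dependsOn_single i (fun b : Bool => if b = true then (0 : ℝ) else 1))]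
  rw [prod_congr rfl (fun v _ => Ex_bw_false h0 h1 v), prod_const]

theorem probOne (h0 : 0 ≤ p) (h1 : p ≤ 1) (S : Finset V) :
    (S.card : ℝ) * p * (1 - p) ^ S.card ≤
      Ex (bw p) (fun ω : V → Bool => if cnt S ω = 1 then (1 : ℝ) else 0) := by
  have hw : IsWt (bw p : V → Bool → ℝ) := isWt_bw h0 h1
  have hle : Ex (bw p) (fun ω : V → Bool => ∑ v ∈ S, ∏ u ∈ S,
      (if u = v then (if ω u = true then (1 : ℝ) else 0) else (if ω u = true then (0 : ℝ) else 1)))
      ≤ Ex (bw p) (fun ω : V → Bool => if cnt S ω = 1 then (1 : ℝ) else 0) := by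
    refine Ex_mono hw fun ω => ?_
    by_cases hex : ∃ v ∈ S, ω v = true ∧ ∀ u ∈ S, u ≠ v → ω u = false
    · obtain ⟨v, hv, hωv, hoth⟩ := hex
      have hcnt : cnt S ω = 1 := by
        unfold cnt
        have : S.filter (fun v => ω v = true) = {v} := by
          ext u
          simp only [mem_filter, mem_singleton]
          constructor
          · rintro ⟨hu, hu2⟩
            by_contra hne
            rw [hoth u hu hne] at hu2
            exact absurd hu2 (by simp)
          · rintro rfl; exact ⟨hv, hωv⟩
        rw [this, card_singleton]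
      rw [if_pos hcnt, sum_eq_single v]
      · refine prod_le_one (fun u _ => ?_) (fun u _ => ?_)
        · split_ifs <;> norm_num
        · split_ifs <;> norm_num
      · intro v' hv' hne
        refine prod_eq_zero hv ?_
        rw [if_neg (Ne.symm hne), if_pos hωv]
      · intro h; exact absurd hv h
    · push Not at hex
      rw [sum_eq_zero]
      · split_ifs <;> norm_num
      · intro v hv
        by_cases hωv : ω v = true
        · obtain ⟨u, hu, hne, hu2⟩ := hex v hv hωv
          refine prod_eq_zero hu ?_
          rw [if_neg hne, if_pos (by simpa using hu2)]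
        · refine prod_eq_zero hv ?_
          rw [if_pos rfl, if_neg hωv]
  refine le_trans ?_ hle
  rw [Ex_sum]
  have hterm : ∀ v ∈ S, p * (1 - p) ^ S.card ≤ Ex (bw p) (fun ω : V → Bool => ∏ u ∈ S,
      (if u = v then (if ω u = true then (1 : ℝ) else 0) else (if ω u = true then (0 : ℝ) else 1))) := by
    intro v hv
    rw [Ex_prod hw S (fun v => {v})
      (fun u ω => if u = v then (if ω u = true then (1 : ℝ) else 0)
        else (if ω u = true then (0 : ℝ) else 1))
      (fun i _ j _ hij => by simpa using hij)
      (fun i _ => dependsOn_single i (fun b : Bool => if i = v then (if b = true then (1 : ℝ) else 0)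
        else (if b = true then (0 : ℝ) else 1)))]
    rw [← mul_prod_erase S _ hv]
    have e1 : Ex (bw p) (fun ω : V → Bool => if v = v then (if ω v = true then (1 : ℝ) else 0)
        else (if ω v = true then (0 : ℝ) else 1)) = p := by
      simp only [if_true]
      exact Ex_bw_true h0 h1 v
    have e2 : ∏ u ∈ S.erase v, Ex (bw p) (fun ω : V → Bool =>
        if u = v then (if ω u = true then (1 : ℝ) else 0)
        else (if ω u = true then (0 : ℝ) else 1)) = (1 - p) ^ (S.erase v).card := by
      rw [← prod_const]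
      refine prod_congr rfl fun u hu => ?_
      have hne : u ≠ v := (mem_erase.mp hu).1
      simp only [hne, if_false]
      exact Ex_bw_false h0 h1 u
    rw [e1, e2]
    refine mul_le_mul_of_nonneg_left ?_ h0
    exact pow_le_pow_of_le_one (by linarith) (by linarith) (card_le_card (erase_subset _ _))
  have := sum_le_sum hterm
  rw [sum_const, nsmul_eq_mul] at this
  linarith

theorem cnt_union {A B : Finset V} (h : Disjoint A B) (ω : V → Bool) :
    cnt (A ∪ B) ω = cnt A ω + cnt B ω := by
  unfold cnt
  rw [filter_union, card_union_of_disjoint (disjoint_filter_filter h)]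

theorem cnt_biUnion {ι : Type} [DecidableEq ι] (T : Finset ι) (S : ι → Finset V)
    (h : ∀ i ∈ T, ∀ j ∈ T, i ≠ j → Disjoint (S i) (S j)) (ω : V → Bool) :
    cnt (T.biUnion S) ω = ∑ i ∈ T, cnt (S i) ω := by
  unfold cnt
  rw [filter_biUnion, card_biUnion]
  intro i hi j hj hij
  exact disjoint_filter_filter (h i hi j hj hij)

theorem probLower : Spec_probLower := by
  intro V _ _ p hp0 hp1 ι _ _ D S hS hdis
  have h0 : 0 ≤ p := hp0.le
  have h1 : p ≤ 1 := by linarith
  have hw : IsWt (bw p : V → Bool → ℝ) := isWt_bw h0 h1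
  set U : Finset V := univ.biUnion S with hU
  set R : Finset V := D \ U with hR
  have hUD : U ⊆ D := by
    intro v hv
    obtain ⟨i, -, hi⟩ := mem_biUnion.mp hv
    exact hS i hi
  have hDU : D = U ∪ R := by rw [hR]; exact (union_sdiff_of_subset hUD).symm
  have hdUR : Disjoint U R := by rw [hR]; exact disjoint_sdiff
  have hle : Ex (bw p) (fun ω : V → Bool =>
        (∏ i, (if cnt (S i) ω = 1 then (1 : ℝ) else 0)) * (if cnt R ω = 0 then (1 : ℝ) else 0)) ≤
      Ex (bw p) (fun ω : V → Bool =>
        if (∀ i, cnt (S i) ω = 1) ∧ cnt D ω = Fintype.card ι then (1 : ℝ) else 0) := by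
    refine Ex_mono hw fun ω => ?_
    by_cases h : (∀ i, cnt (S i) ω = 1) ∧ cnt R ω = 0
    · have hD : cnt D ω = Fintype.card ι := by
        rw [hDU, cnt_union hdUR, h.2, hU, cnt_biUnion _ _ (fun i _ j _ => hdis i j),
          sum_congr rfl (fun i _ => h.1 i)]
        simp
      rw [if_pos h.2, mul_one, if_pos (show (∀ i, cnt (S i) ω = 1) ∧ cnt D ω = Fintype.card ι from
        ⟨h.1, hD⟩)]
      refine prod_le_one (fun i _ => ?_) (fun i _ => ?_)
      · split_ifs <;> norm_num
      · split_ifs <;> norm_num
    · have hz : (∏ i, (if cnt (S i) ω = 1 then (1 : ℝ) else 0))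
          * (if cnt R ω = 0 then (1 : ℝ) else 0) = 0 := by
        rw [not_and_or] at h
        rcases h with h | h
        · push Not at h
          obtain ⟨i, hi⟩ := h
          rw [prod_eq_zero (mem_univ i) (if_neg hi), zero_mul]
        · rw [if_neg h, mul_zero]
      rw [hz]
      split_ifs <;> norm_num
  refine le_trans ?_ hle
  have hdepS : ∀ i, DependsOn (fun ω : V → Bool => if cnt (S i) ω = 1 then (1 : ℝ) else 0)
      (S i : Set V) := by
    intro i x y hxy
    have := cnt_dependsOn (S i) hxy
    simp only at this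
    show (if cnt (S i) x = 1 then (1 : ℝ) else 0) = if cnt (S i) y = 1 then (1 : ℝ) else 0
    rw [this]
  have hdepR : DependsOn (fun ω : V → Bool => if cnt R ω = 0 then (1 : ℝ) else 0) (R : Set V) := by
    intro x y hxy
    have := cnt_dependsOn R hxy
    simp only at this
    show (if cnt R x = 0 then (1 : ℝ) else 0) = if cnt R y = 0 then (1 : ℝ) else 0
    rw [this]
  rw [Ex_mul_of_disjoint hw hdUR
    (dependsOn_prod univ S (fun i ω => if cnt (S i) ω = 1 then (1 : ℝ) else 0)
      (fun i _ => hdepS i)) hdepR,
    Ex_prod hw univ S (fun i ω => if cnt (S i) ω = 1 then (1 : ℝ) else 0)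
      (fun i _ j _ hij => hdis i j hij) (fun i _ => hdepS i),
    probZero h0 h1]
  have hcard : D.card = (∑ i, (S i).card) + R.card := by
    rw [hDU, card_union_of_disjoint hdUR, hU, card_biUnion (fun i _ j _ hij => hdis i j hij)]
  rw [hcard, pow_add, ← mul_assoc]
  refine mul_le_mul_of_nonneg_right ?_ (pow_nonneg (by linarith) _)
  rw [← prod_pow_eq_pow_sum, ← prod_mul_distrib]
  refine prod_le_prod (fun i _ => ?_) (fun i _ => probOne h0 h1 (S i))
  exact mul_nonneg (mul_nonneg (Nat.cast_nonneg _) h0) (pow_nonneg (by linarith) _)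

end

end Pool.Agent.Helper31.Matching
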