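import Pool.Agent.Helper70.Matching.Specs4
import Pool.Agent.Helper94.Matching.Tv
import Pool.Agent.Helper31.Matching.C6a

/-! Packet M-C7 (MP_fb8750_pr): moments of one block.  helper31. -/

set_option autoImplicit false
set_option linter.unusedSectionVars false
open Finset

namespace Pool.Agent.Helper31.Matching

open Pool.Agent.Helper70.Matching

noncomputable section

section bern
variable {V : Type} [Fintype V] [DecidableEq V] {p : ℝ}

theorem cnt_eq_sum (A : Finset V) (ω : V → Bool) :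
    (cnt A ω : ℝ) = ∑ v ∈ A, (if ω v = true then (1 : ℝ) else 0) := by
  unfold cnt
  rw [card_filter]
  push_cast
  rfl

theorem Ex_cnt (h0 : 0 ≤ p) (h1 : p ≤ 1) (A : Finset V) :
    Ex (bw p) (fun ω : V → Bool => (cnt A ω : ℝ)) = A.card * p := by
  simp only [cnt_eq_sum]
  rw [Ex_sum, sum_congr rfl (fun v _ => Ex_bw_true h0 h1 v), sum_const, nsmul_eq_mul]

theorem Ex_cnt_sq (h0 : 0 ≤ p) (h1 : p ≤ 1) (A : Finset V) :
    Ex (bw p) (fun ω : V → Bool => (cnt A ω : ℝ) ^ 2) = A.card * p * (1 - p) + (A.card * p) ^ 2 := by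
  have hw : IsWt (bw p : V → Bool → ℝ) := isWt_bw h0 h1
  have e : ∀ ω : V → Bool, (cnt A ω : ℝ) ^ 2 =
      ∑ u ∈ A, ∑ v ∈ A, (if ω u = true then (1 : ℝ) else 0) * (if ω v = true then (1 : ℝ) else 0) := by
    intro ω
    rw [cnt_eq_sum, sq, sum_mul_sum]
  simp only [e]
  rw [Ex_sum]
  have hterm : ∀ u ∈ A, Ex (bw p) (fun ω : V → Bool => ∑ v ∈ A,
      (if ω u = true then (1 : ℝ) else 0) * (if ω v = true then (1 : ℝ) else 0))
      = p * (1 - p) + A.card * p ^ 2 := by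
    intro u hu
    rw [Ex_sum, ← add_sum_erase A _ hu]
    have e1 : Ex (bw p) (fun ω : V → Bool =>
        (if ω u = true then (1 : ℝ) else 0) * (if ω u = true then (1 : ℝ) else 0)) = p := by
      refine Eq.trans ?_ (Ex_bw_true h0 h1 u)
      congr 1
      funext ω
      split_ifs <;> norm_num
    have e2 : ∀ v ∈ A.erase u, Ex (bw p) (fun ω : V → Bool =>
        (if ω u = true then (1 : ℝ) else 0) * (if ω v = true then (1 : ℝ) else 0)) = p ^ 2 := by
      intro v hv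
      have hne : u ≠ v := fun h => (mem_erase.mp hv).1 h.symm
      rw [Ex_mul_of_disjoint hw (A := {u}) (B := {v}) (by simpa using hne)
        (dependsOn_single u (fun b : Bool => if b = true then (1 : ℝ) else 0))
        (dependsOn_single v (fun b : Bool => if b = true then (1 : ℝ) else 0)),
        Ex_bw_true h0 h1, Ex_bw_true h0 h1, sq]
    rw [e1, sum_congr rfl e2, sum_const, nsmul_eq_mul, card_erase_of_mem hu]
    have hc : 1 ≤ A.card := card_pos.mpr ⟨u, hu⟩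
    rw [Nat.cast_sub hc]
    push_cast
    ring
  rw [sum_congr rfl hterm, sum_const, nsmul_eq_mul]
  ring

theorem Vr_cnt (h0 : 0 ≤ p) (h1 : p ≤ 1) (A : Finset V) :
    Vr (bw p) (fun ω : V → Bool => (cnt A ω : ℝ)) = A.card * p * (1 - p) := by
  rw [Vr_eq (isWt_bw h0 h1), Ex_cnt_sq h0 h1, Ex_cnt h0 h1]
  ring

theorem Ex_exp_cnt (A : Finset V) (s : ℝ) :
    Ex (bw p) (fun ω : V → Bool => Real.exp (s * cnt A ω)) =
      (1 + p * (Real.exp s - 1)) ^ A.card := by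
  have h1 : (fun ω : V → Bool => Real.exp (s * cnt A ω)) =
      fun ω => ∏ v, (fun (v : V) (b : Bool) => if v ∈ A then (if b = true then Real.exp s else 1)
        else 1) v (ω v) := by
    funext ω
    simp only
    rw [Finset.prod_ite_mem, univ_inter, Finset.prod_ite, prod_const, prod_const_one, mul_one,
      ← Real.exp_nat_mul]
    unfold cnt
    rw [mul_comm]
  rw [h1]
  refine (Pool.Agent.Helper94.Matching.Ex_prod_coord (bw p : V → Bool → ℝ)
    (fun (v : V) (b : Bool) => if v ∈ A then (if b = true then Real.exp s else 1) else 1)).trans ?_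
  have h2 : ∀ v : V, ∑ a, bw p v a * (if v ∈ A then (if a = true then Real.exp s else 1) else 1) =
      if v ∈ A then (1 + p * (Real.exp s - 1)) else 1 := by
    intro v
    by_cases hv : v ∈ A
    · simp [bw, hv]
      ring
    · simp [bw, hv]
  simp only [h2]
  rw [Finset.prod_ite_mem, univ_inter, prod_const]

/-- third moment of the number of points, when the mean `R` is at least one -/
theorem Ex_cnt_cube (h0 : 0 ≤ p) (h1 : p ≤ 1) (A : Finset V) (R : ℝ) (hR : (A.card : ℝ) * p = R)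
    (hR1 : 1 ≤ R) :
    Ex (bw p) (fun ω : V → Bool => (cnt A ω : ℝ) ^ 3) ≤ 6 * Real.exp 2 * R ^ 3 := by
  have hw : IsWt (bw p : V → Bool → ℝ) := isWt_bw h0 h1
  have hR0 : 0 < R := by linarith
  have hpt : ∀ ω : V → Bool, (cnt A ω : ℝ) ^ 3 ≤ (6 * R ^ 3) * Real.exp (1 / R * cnt A ω) := by
    intro ω
    have h := Real.pow_div_factorial_le_exp (1 / R * cnt A ω) (by positivity) 3
    have h3 : ((3).factorial : ℝ) = 6 := by norm_num [Nat.factorial]
    rw [h3] at h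
    have h' : (1 / R * (cnt A ω : ℝ)) ^ 3 / 6 * (6 * R ^ 3) = (cnt A ω : ℝ) ^ 3 := by
      field_simp
    have := mul_le_mul_of_nonneg_right h (by positivity : (0 : ℝ) ≤ 6 * R ^ 3)
    rw [h'] at this
    linarith
  refine (Ex_mono hw hpt).trans ?_
  rw [Ex_mul_left, Ex_exp_cnt]
  have hs : |(1 / R : ℝ)| ≤ 1 := by
    rw [abs_of_pos (by positivity)]
    rw [div_le_one hR0]; exact hR1
  have h2 := Real.abs_exp_sub_one_le hs
  rw [abs_of_pos (by positivity : (0 : ℝ) < 1 / R)] at h2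
  have h3 : Real.exp (1 / R) - 1 ≤ 2 * (1 / R) := (le_abs_self _).trans h2
  have h4 : 0 ≤ Real.exp (1 / R) - 1 := by
    have := Real.one_le_exp (by positivity : (0 : ℝ) ≤ 1 / R)
    linarith
  have h5 : (1 + p * (Real.exp (1 / R) - 1)) ^ A.card ≤ Real.exp 2 := by
    calc (1 + p * (Real.exp (1 / R) - 1)) ^ A.card
        ≤ (Real.exp (p * (Real.exp (1 / R) - 1))) ^ A.card := by
          refine pow_le_pow_left₀ (by positivity) ?_ _
          rw [add_comm]
          exact Real.add_one_le_exp _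
      _ = Real.exp ((A.card : ℝ) * (p * (Real.exp (1 / R) - 1))) := by
          rw [← Real.exp_nat_mul]
      _ ≤ Real.exp 2 := by
          refine Real.exp_le_exp.mpr ?_
          have e1 : (A.card : ℝ) * (p * (Real.exp (1 / R) - 1)) = R * (Real.exp (1 / R) - 1) := by
            rw [← hR]; ring
          rw [e1]
          have e2 : R * (Real.exp (1 / R) - 1) ≤ R * (2 * (1 / R)) :=
            mul_le_mul_of_nonneg_left h3 hR0.le
          have e3 : R * (2 * (1 / R)) = 2 := by field_simp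
          linarith
  have := mul_le_mul_of_nonneg_left h5 (by positivity : (0 : ℝ) ≤ 6 * R ^ 3)
  linarith

end bern

theorem abs_sub_cube_le (a b : ℝ) : |a - b| ^ 3 ≤ 4 * (|a| ^ 3 + |b| ^ 3) := by
  have h1 : |a - b| ≤ |a| + |b| := abs_sub a b
  have h2 : |a - b| ^ 3 ≤ (|a| + |b|) ^ 3 := pow_le_pow_left₀ (abs_nonneg _) h1 3
  have ha := abs_nonneg a
  have hb := abs_nonneg b
  nlinarith [mul_nonneg (add_nonneg ha hb) (sq_nonneg (|a| - |b|))]

/-- bounds for the block functional -/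
theorem Fj_bounds {Fn : Set ℂ → Multiset ℂ → ℝ} {C : ℝ} (hG : Good Fn C) {N B rs : ℕ} {h : ℝ}
    (hh : 0 < h) (j : Fin B × Fin B) (ω : Site N → Bool) :
    0 ≤ Fj Fn h rs j ω ∧ Fj Fn h rs j ω ≤ 2 * C * (rs * h) * (Nj rs j ω : ℝ) := by
  refine ⟨hG.nonneg _ _, ?_⟩
  have h0 : (0 : ℝ) ≤ rs * h := by positivity
  have hup := hG.upper ((blk rs j).rect h).bd (pts h ((blk rs j).sites N) ω)
    ⟨((j.1 : ℕ) * rs : ℕ) * h, ((j.2 : ℕ) * rs : ℕ) * h⟩ (2 * (rs * h)) ?_ ?_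
  · have hc : Multiset.card (pts h ((blk rs j).sites N) ω) = Nj rs j ω := by
      unfold pts Nj cnt
      rw [Multiset.card_map]
      rfl
    rw [hc] at hup
    unfold Fj
    refine hup.trans (le_of_eq ?_)
    ring
  · refine ⟨le_rfl, ?_, le_rfl, ?_, Or.inl rfl⟩
    · show (((j.1 : ℕ) * rs : ℕ) : ℝ) * h ≤ ((((j.1 : ℕ) + 1) * rs : ℕ) : ℝ) * h
      refine mul_le_mul_of_nonneg_right ?_ hh.le
      exact_mod_cast Nat.mul_le_mul_right rs (Nat.le_succ _)
    · show (((j.2 : ℕ) * rs : ℕ) : ℝ) * h ≤ ((((j.2 : ℕ) + 1) * rs : ℕ) : ℝ) * h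
      refine mul_le_mul_of_nonneg_right ?_ hh.le
      exact_mod_cast Nat.mul_le_mul_right rs (Nat.le_succ _)
  · intro x hx
    unfold pts at hx
    rw [Multiset.mem_map] at hx
    obtain ⟨v, hv, rfl⟩ := hx
    rw [mem_val, mem_filter] at hv
    obtain ⟨hv, -⟩ := hv
    unfold NBox.sites at hv
    rw [mem_filter] at hv
    obtain ⟨-, a1, a2, a3, a4⟩ := hv
    have key : ∀ (x j : ℕ), j * rs ≤ x → x < (j + 1) * rs →
        |((x : ℝ) + 1 / 2) * h - ((j * rs : ℕ) : ℝ) * h| ≤ rs * h := by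
      intro x j h1 h2
      have h1' : ((j * rs : ℕ) : ℝ) ≤ x := by exact_mod_cast h1
      have h2' : (x : ℝ) + 1 ≤ ((j * rs : ℕ) : ℝ) + rs := by
        have : x + 1 ≤ j * rs + rs := by
          have := h2; rw [Nat.add_mul, one_mul] at this; omega
        exact_mod_cast this
      rw [← sub_mul, abs_mul, abs_of_pos hh]
      refine mul_le_mul_of_nonneg_right ?_ hh.le
      rw [abs_le]
      constructor <;> linarith
    rw [Complex.dist_eq]
    refine (Complex.norm_le_abs_re_add_abs_im _).trans ?_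
    have k1 := key (v.1 : ℕ) (j.1 : ℕ) a1 a2
    have k2 := key (v.2 : ℕ) (j.2 : ℕ) a3 a4
    have e1 : (pos h v - (⟨((j.1 : ℕ) * rs : ℕ) * h, ((j.2 : ℕ) * rs : ℕ) * h⟩ : ℂ)).re
        = (((v.1 : ℕ) : ℝ) + 1 / 2) * h - (((j.1 : ℕ) * rs : ℕ) : ℝ) * h := by
      simp [pos]
    have e2 : (pos h v - (⟨((j.1 : ℕ) * rs : ℕ) * h, ((j.2 : ℕ) * rs : ℕ) * h⟩ : ℂ)).im
        = (((v.2 : ℕ) : ℝ) + 1 / 2) * h - (((j.2 : ℕ) * rs : ℕ) : ℝ) * h := by
      simp [pos]
    rw [e1, e2]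
    linarith

theorem moments : Spec_moments := by
  intro Fn C hG
  have hC : 1 ≤ C := hG.one_le
  set M : ℝ := 6 * Real.exp 2 with hM
  have hM0 : 0 < M := by positivity
  refine ⟨4 * (M + 1) * (2 * C) ^ 3 + 8 * C ^ 2, by positivity, ?_⟩
  intro N B rs h j hN hh hr hh2
  set p : ℝ := h ^ 2 with hp
  have h0 : 0 ≤ p := by positivity
  have h1 : p ≤ 1 := by linarith
  have hw : IsWt (bw p : Site N → Bool → ℝ) := isWt_bw h0 h1
  set r : ℝ := rs * h with hrdef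
  have hr0 : 0 < r := by linarith
  set A : Finset (Site N) := (blk rs j).sites N with hA
  have hcard : (A.card : ℝ) = (rs : ℝ) ^ 2 := by
    have : A.card = rs ^ 2 := Pool.Agent.Helper94.Matching.card_cellS hN j
    rw [this]; push_cast; rfl
  have hnp : (A.card : ℝ) * p = r ^ 2 := by
    rw [hcard, hrdef, hp]; ring
  have hr2 : 1 ≤ r ^ 2 := one_le_pow₀ hr
  have hNj : ∀ ω : Site N → Bool, Nj rs j ω = cnt A ω := fun ω => rfl
  have m1 : Ex (bw p) (fun ω : Site N → Bool => (Nj rs j ω : ℝ)) = r ^ 2 := by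
    simp only [hNj]
    rw [Ex_cnt h0 h1, hnp]
  have m2 : Ex (bw p) (fun ω : Site N → Bool => (Nj rs j ω : ℝ) ^ 2)
      = r ^ 2 * (1 - p) + (r ^ 2) ^ 2 := by
    simp only [hNj]
    rw [Ex_cnt_sq h0 h1, hnp]
  have m3 : Ex (bw p) (fun ω : Site N → Bool => (Nj rs j ω : ℝ) ^ 3) ≤ M * r ^ 6 := by
    simp only [hNj]
    refine (Ex_cnt_cube h0 h1 A (r ^ 2) hnp hr2).trans (le_of_eq ?_)
    rw [hM]; ring
  have mV : Vr (bw p) (fun ω : Site N → Bool => (Nj rs j ω : ℝ)) = r ^ 2 * (1 - p) := by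
    simp only [hNj]
    rw [Vr_cnt h0 h1, hnp]
  have hC3 : 1 ≤ (2 * C) ^ 3 := one_le_pow₀ (by linarith)
  have hr6 : 0 < r ^ 6 := by positivity
  refine ⟨?_, ?_, m1, mV, ?_⟩
  · intro α
    set Y : (Site N → Bool) → ℝ := fun ω => Fj Fn h rs j ω - α * (Nj rs j ω : ℝ) with hY
    set c : ℝ := 2 * C * r + |α| with hc
    have hc0 : 0 ≤ c := by positivity
    have hYle : ∀ ω, |Y ω| ≤ c * (Nj rs j ω : ℝ) := by
      intro ω
      obtain ⟨b1, b2⟩ := Fj_bounds hG (N := N) hh j ω (rs := rs)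
      have hn : (0 : ℝ) ≤ (Nj rs j ω : ℝ) := Nat.cast_nonneg _
      calc |Y ω| ≤ |Fj Fn h rs j ω| + |α * (Nj rs j ω : ℝ)| := abs_sub _ _
        _ = Fj Fn h rs j ω + |α| * (Nj rs j ω : ℝ) := by
            rw [abs_of_nonneg b1, abs_mul, abs_of_nonneg hn]
        _ ≤ 2 * C * r * (Nj rs j ω : ℝ) + |α| * (Nj rs j ω : ℝ) := by
            have : 2 * C * r * (Nj rs j ω : ℝ) = 2 * C * (rs * h) * (Nj rs j ω : ℝ) := by
              rw [hrdef]
            linarith
        _ = c * (Nj rs j ω : ℝ) := by rw [hc]; ring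
    have hEY : |Ex (bw p) Y| ≤ c * r ^ 2 := by
      refine (abs_Ex_le hw Y).trans ?_
      refine (Ex_mono hw hYle).trans (le_of_eq ?_)
      rw [Ex_mul_left, m1]
    have hpt : ∀ ω, |Y ω - Ex (bw p) Y| ^ 3
        ≤ (4 * c ^ 3) * (Nj rs j ω : ℝ) ^ 3 + 4 * (c * r ^ 2) ^ 3 := by
      intro ω
      refine (abs_sub_cube_le _ _).trans ?_
      have q1 : |Y ω| ^ 3 ≤ (c * (Nj rs j ω : ℝ)) ^ 3 := pow_le_pow_left₀ (abs_nonneg _) (hYle ω) 3
      have q2 : |Ex (bw p) Y| ^ 3 ≤ (c * r ^ 2) ^ 3 := pow_le_pow_left₀ (abs_nonneg _) hEY 3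
      rw [mul_pow] at q1
      linarith
    have hE := Ex_mono hw hpt
    rw [Ex_add, Ex_const hw, Ex_mul_left] at hE
    refine hE.trans ?_
    have hc3 : c ^ 3 ≤ (2 * C) ^ 3 * (r + |α|) ^ 3 := by
      rw [← mul_pow]
      refine pow_le_pow_left₀ hc0 ?_ 3
      rw [hc]
      have := abs_nonneg α
      nlinarith
    have hc30 : 0 ≤ c ^ 3 := by positivity
    calc 4 * c ^ 3 * Ex (bw p) (fun ω : Site N → Bool => (Nj rs j ω : ℝ) ^ 3) + 4 * (c * r ^ 2) ^ 3
        ≤ 4 * c ^ 3 * (M * r ^ 6) + 4 * (c * r ^ 2) ^ 3 := by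
          have := mul_le_mul_of_nonneg_left m3 (by positivity : (0 : ℝ) ≤ 4 * c ^ 3)
          linarith
      _ = (4 * (M + 1) * r ^ 6) * c ^ 3 := by ring
      _ ≤ (4 * (M + 1) * r ^ 6) * ((2 * C) ^ 3 * (r + |α|) ^ 3) :=
          mul_le_mul_of_nonneg_left hc3 (by positivity)
      _ = (4 * (M + 1) * (2 * C) ^ 3) * (r + |α|) ^ 3 * r ^ 6 := by ring
      _ ≤ (4 * (M + 1) * (2 * C) ^ 3 + 8 * C ^ 2) * (r + |α|) ^ 3 * r ^ 6 := by
          have hx : (0 : ℝ) ≤ (r + |α|) ^ 3 * r ^ 6 := by positivity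
          have hy : (0 : ℝ) ≤ 8 * C ^ 2 := by positivity
          nlinarith [mul_nonneg hy hx]
  · have hpt : ∀ ω : Site N → Bool, |(Nj rs j ω : ℝ) - r ^ 2| ^ 3
        ≤ 4 * (Nj rs j ω : ℝ) ^ 3 + 4 * r ^ 6 := by
      intro ω
      refine (abs_sub_cube_le _ _).trans ?_
      rw [abs_of_nonneg (Nat.cast_nonneg _ : (0 : ℝ) ≤ (Nj rs j ω : ℝ)),
        abs_of_nonneg (by positivity : (0 : ℝ) ≤ r ^ 2)]
      have : (r ^ 2) ^ 3 = r ^ 6 := by ring
      rw [this]
      linarith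
    have hE := Ex_mono hw hpt
    rw [Ex_add, Ex_const hw, Ex_mul_left] at hE
    refine hE.trans ?_
    calc 4 * Ex (bw p) (fun ω : Site N → Bool => (Nj rs j ω : ℝ) ^ 3) + 4 * r ^ 6
        ≤ 4 * (M * r ^ 6) + 4 * r ^ 6 := by linarith
      _ = (4 * (M + 1)) * 1 * r ^ 6 := by ring
      _ ≤ (4 * (M + 1)) * (2 * C) ^ 3 * r ^ 6 := by
          refine mul_le_mul_of_nonneg_right ?_ hr6.le
          exact mul_le_mul_of_nonneg_left hC3 (by positivity)
      _ ≤ (4 * (M + 1) * (2 * C) ^ 3 + 8 * C ^ 2) * r ^ 6 := by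
          refine mul_le_mul_of_nonneg_right ?_ hr6.le
          have hy : (0 : ℝ) ≤ 8 * C ^ 2 := by positivity
          linarith
  · rw [Vr_eq hw]
    have hpt : ∀ ω : Site N → Bool, (Fj Fn h rs j ω) ^ 2 ≤ (2 * C * r) ^ 2 * (Nj rs j ω : ℝ) ^ 2 := by
      intro ω
      obtain ⟨b1, b2⟩ := Fj_bounds hG (N := N) hh j ω (rs := rs)
      rw [← mul_pow]
      exact pow_le_pow_left₀ b1 b2 2
    have hE := Ex_mono hw hpt
    rw [Ex_mul_left, m2] at hE
    have hsq : 0 ≤ (Ex (bw p) (fun ω : Site N → Bool => Fj Fn h rs j ω)) ^ 2 := sq_nonneg _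
    have e1 : r ^ 2 * (1 - p) + (r ^ 2) ^ 2 ≤ 2 * r ^ 4 := by
      have : r ^ 2 ≤ r ^ 4 := pow_le_pow_right₀ hr (by norm_num)
      have : r ^ 2 * (1 - p) ≤ r ^ 2 := by
        have := mul_nonneg (by positivity : (0 : ℝ) ≤ r ^ 2) h0
        linarith
      have : (r ^ 2) ^ 2 = r ^ 4 := by ring
      linarith
    have e2 : (2 * C * r) ^ 2 * (r ^ 2 * (1 - p) + (r ^ 2) ^ 2) ≤ (2 * C * r) ^ 2 * (2 * r ^ 4) :=
      mul_le_mul_of_nonneg_left e1 (by positivity)
    have e3 : (2 * C * r) ^ 2 * (2 * r ^ 4) = 8 * C ^ 2 * r ^ 6 := by ring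
    have e4 : 8 * C ^ 2 * r ^ 6 ≤ (4 * (M + 1) * (2 * C) ^ 3 + 8 * C ^ 2) * r ^ 6 := by
      refine mul_le_mul_of_nonneg_right ?_ hr6.le
      have : 0 ≤ 4 * (M + 1) * (2 * C) ^ 3 := by positivity
      linarith
    linarith

end

end Pool.Agent.Helper31.Matching
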